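import Mathlib

/-!
# Lovász theta of generalized Mycielskians

For every `r ≥ 1` the complementary theta number of the generalized Mycielskian `M_r(G)` is a
function of the complementary theta number of `G` only; it is the value of an explicit semidefinite
program whose matrices have sizes `r + 1` and `r` (`Reduced`).

Outline.
* `Feas G s`: there are vectors with `|w_i|² ≤ s - 1` and `⟨w_i,w_j⟩ = -1` on edges; this is
  `thetaBar G ≤ s` (`isLeast_thetaValues`).
* `strong_duality`, `exists_opt`: there is an optimal dual matrix `B` (psd, trace one, supported on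
  the diagonal and the edges, sum of all entries `τ = thetaBar G`).  Optimality under the scalings
  `B ↦ (x_i x_j B_ij)` gives that `τ diag(B) - B` is psd (`slack_psd`) and kills the all-one vector
  (`row_sum`).
* `reduce`: contracting the Gram matrix of `M_r(G)` with `B` and with `τ diag(B) - B` produces a
  feasible point of the reduced program.
* `reconstruct`: a feasible point of the reduced program, tensored with an optimal solution for
  `G`, is feasible for `M_r(G)`.
-/

set_option autoImplicit false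
set_option linter.unusedSimpArgs false
set_option linter.unusedSectionVars false

open Finset
open scoped InnerProductSpace

namespace Pool.Agent.Results.MP_8a180b_co.MycielskianTheta

/-! ### Definitions used in the statement -/

/-- positive semidefinite real symmetric matrix, written as a function of two indices -/
def PSD {ι : Type*} [Fintype ι] (M : ι → ι → ℝ) : Prop :=
  (∀ i j, M i j = M j i) ∧ ∀ x : ι → ℝ, 0 ≤ ∑ i, ∑ j, x i * x j * M i j


/-- A dual orthonormal representation of `G` in `ℝ^d`: unit vectors, orthogonal on edges. -/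
def IsDualRep {V : Type} (G : SimpleGraph V) {d : ℕ} (u : V → EuclideanSpace ℝ (Fin d)) : Prop :=
  (∀ i, ‖u i‖ = 1) ∧ ∀ i j, G.Adj i j → ⟪u i, u j⟫_ℝ = 0

/-- The finite values `max_i 1/⟨c,u_i⟩²` over all dual orthonormal representations of `G`, in all
dimensions, and all unit vectors `c` (pairs with some `⟨c,u_i⟩ = 0` have value `+∞`). -/
def thetaValues {V : Type} (G : SimpleGraph V) : Set ℝ :=
  {s | ∃ (d : ℕ) (u : V → EuclideanSpace ℝ (Fin d)) (c : EuclideanSpace ℝ (Fin d)),
    IsDualRep G u ∧ ‖c‖ = 1 ∧ (∀ i, ⟪c, u i⟫_ℝ ≠ 0) ∧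
    IsGreatest (Set.range fun i => 1 / ⟪c, u i⟫_ℝ ^ 2) s}

/-- The complementary theta number (the minimum of `thetaValues`). -/
noncomputable def thetaBar {V : Type} (G : SimpleGraph V) : ℝ := sInf (thetaValues G)

/-- `i` and `j` are adjacent in the path on `0, 1, 2, ...` with a loop at `0`. -/
def PathAdj (i j : ℕ) : Prop := i + 1 = j ∨ j + 1 = i ∨ (i = 0 ∧ j = 0)

/-- The generalized Mycielskian `M_r(G)`: the vertices `(v,i)`, `i < r`, are `some (v,i)` and the
vertex obtained by identifying all the `(v,r)` is `none`. -/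
def genMycielskian {V : Type} (G : SimpleGraph V) (r : ℕ) : SimpleGraph (Option (V × Fin r)) where
  Adj x y := match x, y with
    | some p, some q => G.Adj p.1 q.1 ∧ PathAdj p.2 q.2
    | some p, none => ∃ w, G.Adj p.1 w ∧ PathAdj p.2 r
    | none, some p => ∃ w, G.Adj p.1 w ∧ PathAdj p.2 r
    | none, none => False
  symm := ⟨by
    intro x y h
    cases x <;> cases y
    · exact h
    · exact h
    · exact h
    · refine ⟨h.1.symm, ?_⟩
      rcases h.2 with h | h | h
      · exact Or.inr (Or.inl h)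
      · exact Or.inl h
      · exact Or.inr (Or.inr ⟨h.2, h.1⟩)⟩
  loopless := ⟨by
    intro x h
    cases x
    · exact h
    · exact G.loopless.irrefl _ h.1⟩

/-- The reduced semidefinite program with parameter `t`, at level `s`: its matrices have sizes
`r + 1` and `r`. -/
def Reduced (r : ℕ) (t s : ℝ) : Prop :=
  ∃ (Q : Option (Fin r) → Option (Fin r) → ℝ) (P : Fin r → Fin r → ℝ), PSD Q ∧ PSD P ∧
    (∀ i j : Fin r, PathAdj i j → P i j = (t - 1) * (1 + Q (some i) (some j))) ∧
    (∀ i : Fin r, i.val + 1 = r → Q none (some i) = -1) ∧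
    (∀ i, Q (some i) (some i) + P i i ≤ s - 1) ∧ Q none none ≤ s - 1

section basics

variable {ι κ μ : Type*} [Fintype ι] [Fintype κ] [Fintype μ]

open scoped MatrixOrder Matrix.Norms.L2Operator in
theorem PSD.gram {M : ι → ι → ℝ} (h : PSD M) :
    ∃ A : ι → ι → ℝ, ∀ i j, M i j = ∑ k, A k i * A k j := by
  classical
  have hM : (Matrix.of M).PosSemidef := by
    refine Matrix.PosSemidef.of_dotProduct_mulVec_nonneg ?_ ?_
    · ext i j
      simp [h.1 i j]
    · intro x
      have := h.2 x
      simp only [dotProduct, Matrix.mulVec, Matrix.of_apply, Pi.star_apply, star_trivial,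
        Finset.mul_sum]
      refine this.trans_eq (Finset.sum_congr rfl fun i _ => Finset.sum_congr rfl fun j _ => ?_)
      ring
  obtain ⟨A, hA⟩ := CStarAlgebra.nonneg_iff_eq_star_mul_self.mp hM.nonneg
  refine ⟨fun k i => A k i, fun i j => ?_⟩
  have := congrFun (congrFun hA i) j
  simpa [Matrix.mul_apply, Matrix.star_eq_conjTranspose] using this

theorem gram_quad (A : κ → ι → ℝ) (x : ι → ℝ) :
    ∑ i, ∑ j, x i * x j * ∑ k, A k i * A k j = ∑ k, (∑ i, x i * A k i) ^ 2 := by
  have h1 : ∀ k, (∑ i, x i * A k i) ^ 2 = ∑ i, ∑ j, x i * x j * (A k i * A k j) := by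
    intro k
    rw [sq, Finset.sum_mul_sum]
    exact Finset.sum_congr rfl fun i _ => Finset.sum_congr rfl fun j _ => by ring
  simp only [h1, Finset.mul_sum]
  rw [Finset.sum_comm]
  conv_rhs => rw [Finset.sum_comm]
  rw [Finset.sum_comm]
  refine Finset.sum_congr rfl fun i _ => ?_
  rw [Finset.sum_comm]

theorem psd_of_gram (A : κ → ι → ℝ) : PSD (fun i j => ∑ k, A k i * A k j) := by
  refine ⟨fun i j => Finset.sum_congr rfl fun k _ => mul_comm _ _, fun x => ?_⟩
  rw [gram_quad]; positivity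

theorem PSD.pullback {M : ι → ι → ℝ} (h : PSD M) (φ : κ → ι) :
    PSD (fun a b => M (φ a) (φ b)) := by
  obtain ⟨A, hA⟩ := h.gram
  have := psd_of_gram (fun (k : ι) (a : κ) => A k (φ a))
  simpa only [← hA] using this

theorem PSD.add {M N : ι → ι → ℝ} (h : PSD M) (h' : PSD N) :
    PSD (fun a b => M a b + N a b) := by
  refine ⟨fun i j => by simp only [h.1 i j, h'.1 i j], fun x => ?_⟩
  simp only [mul_add, Finset.sum_add_distrib]
  exact add_nonneg (h.2 x) (h'.2 x)

theorem PSD.smul {M : ι → ι → ℝ} (h : PSD M) {c : ℝ} (hc : 0 ≤ c) :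
    PSD (fun a b => c * M a b) := by
  refine ⟨fun i j => by simp only [h.1 i j], fun x => ?_⟩
  have : ∑ i, ∑ j, x i * x j * (c * M i j) = c * ∑ i, ∑ j, x i * x j * M i j := by
    simp only [Finset.mul_sum]
    exact Finset.sum_congr rfl fun i _ => Finset.sum_congr rfl fun j _ => by ring
  rw [this]
  exact mul_nonneg hc (h.2 x)

/-- contraction of two psd matrices -/
theorem PSD.contract {B : ι → ι → ℝ} (hB : PSD B) {Z : ι × κ → ι × κ → ℝ} (hZ : PSD Z) :
    PSD (fun a b : κ => ∑ u, ∑ v, B u v * Z (u, a) (v, b)) := by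
  obtain ⟨A, hA⟩ := hB.gram
  refine ⟨fun i j => ?_, fun x => ?_⟩
  · show ∑ u, ∑ v, B u v * Z (u, i) (v, j) = ∑ u, ∑ v, B u v * Z (u, j) (v, i)
    rw [Finset.sum_comm]
    exact Finset.sum_congr rfl fun u _ => Finset.sum_congr rfl fun v _ => by rw [hB.1, hZ.1]
  · have key : ∑ i, ∑ j, x i * x j * ∑ u, ∑ v, B u v * Z (u, i) (v, j)
        = ∑ k, ∑ p : ι × κ, ∑ q : ι × κ, (A k p.1 * x p.2) * (A k q.1 * x q.2) * Z p q := by
      simp only [hA, Fintype.sum_prod_type, Finset.mul_sum, Finset.sum_mul]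
      have e1 : ∀ f : κ → κ → ι → ι → ι → ℝ,
          ∑ i, ∑ j, ∑ u, ∑ v, ∑ k, f i j u v k = ∑ k, ∑ u, ∑ i, ∑ v, ∑ j, f i j u v k := by
        intro f
        calc ∑ i, ∑ j, ∑ u, ∑ v, ∑ k, f i j u v k
            = ∑ i, ∑ j, ∑ u, ∑ k, ∑ v, f i j u v k := by
              refine Finset.sum_congr rfl fun i _ => Finset.sum_congr rfl fun j _ =>
                Finset.sum_congr rfl fun u _ => Finset.sum_comm
          _ = ∑ i, ∑ j, ∑ k, ∑ u, ∑ v, f i j u v k := by
              refine Finset.sum_congr rfl fun i _ => Finset.sum_congr rfl fun j _ =>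
                Finset.sum_comm
          _ = ∑ i, ∑ k, ∑ j, ∑ u, ∑ v, f i j u v k := by
              refine Finset.sum_congr rfl fun i _ => Finset.sum_comm
          _ = ∑ k, ∑ i, ∑ j, ∑ u, ∑ v, f i j u v k := Finset.sum_comm
          _ = ∑ k, ∑ i, ∑ u, ∑ j, ∑ v, f i j u v k := by
              refine Finset.sum_congr rfl fun k _ => Finset.sum_congr rfl fun i _ =>
                Finset.sum_comm
          _ = ∑ k, ∑ u, ∑ i, ∑ j, ∑ v, f i j u v k := by
              refine Finset.sum_congr rfl fun k _ => Finset.sum_comm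
          _ = ∑ k, ∑ u, ∑ i, ∑ v, ∑ j, f i j u v k := by
              refine Finset.sum_congr rfl fun k _ => Finset.sum_congr rfl fun u _ =>
                Finset.sum_congr rfl fun i _ => Finset.sum_comm
      rw [e1]
      refine Finset.sum_congr rfl fun k _ => Finset.sum_congr rfl fun u _ =>
                Finset.sum_congr rfl fun i _ => Finset.sum_congr rfl fun v _ =>
                Finset.sum_congr rfl fun j _ => by ring
    rw [key]
    exact Finset.sum_nonneg fun k _ => hZ.2 _

/-- Kronecker product -/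
theorem PSD.kron {P : κ → κ → ℝ} (hP : PSD P) {N : ι → ι → ℝ} (hN : PSD N) :
    PSD (fun a b : ι × κ => P a.2 b.2 * N a.1 b.1) := by
  obtain ⟨A, hA⟩ := hP.gram
  obtain ⟨C, hC⟩ := hN.gram
  have := psd_of_gram (fun (k : κ × ι) (a : ι × κ) => A k.1 a.2 * C k.2 a.1)
  have e : ∀ a b : ι × κ, P a.2 b.2 * N a.1 b.1
      = ∑ k : κ × ι, (A k.1 a.2 * C k.2 a.1) * (A k.1 b.2 * C k.2 b.1) := by
    intro a b
    rw [hA, hC, Finset.sum_mul_sum, Fintype.sum_prod_type]
    exact Finset.sum_congr rfl fun k _ => Finset.sum_congr rfl fun l _ => by ring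
  simpa only [← e] using this

/-- extension by zero to `Option` -/
def ext0 {ι : Type*} (P : ι → ι → ℝ) : Option ι → Option ι → ℝ
  | some i, some j => P i j
  | some _, none => 0
  | none, _ => 0

theorem PSD.extendNone {P : ι → ι → ℝ} (hP : PSD P) : PSD (ext0 P) := by
  refine ⟨fun a b => ?_, fun x => ?_⟩
  · cases a <;> cases b <;> simp [ext0, hP.1]
  · simp only [Fintype.sum_option]
    simpa [ext0] using hP.2 (fun i => x (some i))

theorem PSD.diag_nonneg {M : ι → ι → ℝ} (h : PSD M) (i : ι) : 0 ≤ M i i := by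
  obtain ⟨A, hA⟩ := h.gram
  rw [hA]
  exact Finset.sum_nonneg fun k _ => mul_self_nonneg _

theorem PSD.sq_le {M : ι → ι → ℝ} (h : PSD M) (i j : ι) : M i j ^ 2 ≤ M i i * M j j := by
  obtain ⟨A, hA⟩ := h.gram
  rw [hA, hA, hA]
  have := Finset.sum_mul_sq_le_sq_mul_sq univ (fun k => A k i) (fun k => A k j)
  simpa [sq] using this

/-- the trace inner product of two psd matrices is nonnegative -/
theorem PSD.inner_nonneg {B Z : ι → ι → ℝ} (hB : PSD B) (hZ : PSD Z) :
    0 ≤ ∑ u, ∑ v, B u v * Z u v := by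
  obtain ⟨A, hA⟩ := hB.gram
  have key : ∑ u, ∑ v, B u v * Z u v = ∑ k, ∑ u, ∑ v, A k u * A k v * Z u v := by
    simp only [hA, Finset.sum_mul]
    calc ∑ u, ∑ v, ∑ k, A k u * A k v * Z u v
        = ∑ u, ∑ k, ∑ v, A k u * A k v * Z u v :=
          Finset.sum_congr rfl fun u _ => Finset.sum_comm
      _ = _ := Finset.sum_comm
  rw [key]
  exact Finset.sum_nonneg fun k _ => hZ.2 _

end basics

section duality

variable {V : Type} [Fintype V]

/-- primal feasibility at level `s` (Gram matrix of the vectors `u_i/⟨c,u_i⟩ - c`) -/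
def Feas (G : SimpleGraph V) (s : ℝ) : Prop :=
  ∃ Z : V → V → ℝ, PSD Z ∧ (∀ i, Z i i ≤ s - 1) ∧ ∀ i j, G.Adj i j → Z i j = -1

/-- dual feasibility -/
def Dual (G : SimpleGraph V) (B : V → V → ℝ) : Prop :=
  PSD B ∧ ∀ i j, i ≠ j → ¬ G.Adj i j → B i j = 0

theorem weak_duality {G : SimpleGraph V} {B : V → V → ℝ} (hB : Dual G B) {s : ℝ}
    (hs : Feas G s) : ∑ i, ∑ j, B i j ≤ s * ∑ i, B i i := by
  classical
  obtain ⟨Z, hZ, hd, he⟩ := hs
  have h1 := hB.1.inner_nonneg hZ
  have h2 : ∀ i, ∑ j, (B i j + B i j * Z i j) = B i i * (1 + Z i i) := by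
    intro i
    rw [Finset.sum_eq_single i]
    · ring
    · intro j _ hj
      by_cases ha : G.Adj i j
      · rw [he i j ha]; ring
      · rw [hB.2 i j (Ne.symm hj) ha]; ring
    · simp
  have h3 : ∑ i, ∑ j, B i j + ∑ i, ∑ j, B i j * Z i j = ∑ i, B i i * (1 + Z i i) := by
    rw [← Finset.sum_add_distrib]
    exact Finset.sum_congr rfl fun i _ => by rw [← Finset.sum_add_distrib, h2]
  have h4 : ∑ i, B i i * (1 + Z i i) ≤ ∑ i, B i i * s :=
    Finset.sum_le_sum fun i _ =>
      mul_le_mul_of_nonneg_left (by linarith [hd i]) (hB.1.diag_nonneg i)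
  rw [Finset.mul_sum]
  have h5 : ∑ i, B i i * s = ∑ i, s * B i i := Finset.sum_congr rfl fun i _ => mul_comm _ _
  linarith

/-- the closed convex cone of attainable data -/
def cone (G : SimpleGraph V) : Set (V → V → ℝ) :=
  {M | ∃ Z : V → V → ℝ, PSD Z ∧ (∀ i, Z i i ≤ M i i) ∧ ∀ i j, G.Adj i j → Z i j = M i j}

theorem psd_zero : PSD (fun _ _ : V => (0 : ℝ)) := ⟨fun _ _ => rfl, fun x => by simp⟩

theorem cone_convex (G : SimpleGraph V) : Convex ℝ (cone G) := by
  rintro M ⟨Z, hZ, hd, he⟩ N ⟨W, hW, hd', he'⟩ a b ha hb _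
  refine ⟨fun i j => a * Z i j + b * W i j, (hZ.smul ha).add (hW.smul hb), fun i => ?_,
    fun i j h => ?_⟩
  · simp only [Pi.add_apply, Pi.smul_apply, smul_eq_mul]
    have := mul_le_mul_of_nonneg_left (hd i) ha
    have := mul_le_mul_of_nonneg_left (hd' i) hb
    linarith
  · simp only [Pi.add_apply, Pi.smul_apply, smul_eq_mul, he i j h, he' i j h]

theorem isClosed_psd : IsClosed {Z : V → V → ℝ | PSD Z} := by
  have : {Z : V → V → ℝ | PSD Z} = (⋂ i, ⋂ j, {Z | Z i j = Z j i}) ∩
      ⋂ x : V → ℝ, {Z | 0 ≤ ∑ i, ∑ j, x i * x j * Z i j} := by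
    ext Z; simp [PSD]
  rw [this]
  refine IsClosed.inter ?_ ?_
  · exact isClosed_iInter fun i => isClosed_iInter fun j =>
      isClosed_eq (by fun_prop) (by fun_prop)
  · exact isClosed_iInter fun x => isClosed_le (by fun_prop) (by fun_prop)

theorem psd_bound {Z : V → V → ℝ} (hZ : PSD Z) {C : ℝ} (hC : ∀ i, Z i i ≤ C) (i j : V) :
    |Z i j| ≤ C := by
  have h0 : 0 ≤ C := (hZ.diag_nonneg i).trans (hC i)
  refine abs_le_of_sq_le_sq ?_ h0
  calc Z i j ^ 2 ≤ Z i i * Z j j := hZ.sq_le i j
    _ ≤ C * C := mul_le_mul (hC i) (hC j) (hZ.diag_nonneg j) h0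
    _ = C ^ 2 := by ring

theorem cone_closed (G : SimpleGraph V) : IsClosed (cone G) := by
  apply IsSeqClosed.isClosed
  intro M M0 hM hlim
  choose Z hZ hd he using hM
  -- boundedness
  obtain ⟨C, hC⟩ : ∃ C : ℝ, ∀ n i, M n i i ≤ C := by
    have hb : Bornology.IsBounded (Set.range M) := Metric.isBounded_range_of_tendsto M hlim
    obtain ⟨C, hC⟩ := hb.exists_norm_le
    refine ⟨C, fun n i => ?_⟩
    calc M n i i ≤ |M n i i| := le_abs_self _
      _ = ‖M n i i‖ := rfl
      _ ≤ ‖M n i‖ := norm_le_pi_norm _ _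
      _ ≤ ‖M n‖ := norm_le_pi_norm _ _
      _ ≤ C := hC _ ⟨n, rfl⟩
  have hK : IsCompact (Set.pi Set.univ fun _ : V => Set.pi Set.univ fun _ : V => Set.Icc (-C) C) :=
    isCompact_univ_pi fun _ => isCompact_univ_pi fun _ => isCompact_Icc
  have hmem : ∀ n, Z n ∈ Set.pi Set.univ fun _ : V => Set.pi Set.univ fun _ : V =>
      Set.Icc (-C) C := by
    intro n i _ j _
    exact abs_le.mp (psd_bound (hZ n) (fun i => (hd n i).trans (hC n i)) i j)
  obtain ⟨Z0, -, φ, hφ, hφlim⟩ := hK.tendsto_subseq hmem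
  have hZlim : ∀ i j, Filter.Tendsto (fun n => Z (φ n) i j) Filter.atTop (nhds (Z0 i j)) := by
    intro i j
    exact (tendsto_pi_nhds.mp ((tendsto_pi_nhds.mp hφlim) i)) j
  have hMlim : ∀ i j, Filter.Tendsto (fun n => M (φ n) i j) Filter.atTop (nhds (M0 i j)) := by
    intro i j
    exact (tendsto_pi_nhds.mp ((tendsto_pi_nhds.mp (hlim.comp hφ.tendsto_atTop)) i)) j
  refine ⟨Z0, ?_, fun i => ?_, fun i j h => ?_⟩
  · exact isClosed_psd.mem_of_tendsto hφlim (Filter.Eventually.of_forall fun n => hZ (φ n))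
  · exact le_of_tendsto_of_tendsto' (hZlim i i) (hMlim i i) fun n => hd (φ n) i
  · exact tendsto_nhds_unique (hZlim i j)
      ((hMlim i j).congr fun n => (he (φ n) i j h).symm)

/-- strong duality -/
theorem strong_duality [DecidableEq V] {G : SimpleGraph V} {τ : ℝ}
    (hτ : ∀ B, Dual G B → ∑ i, ∑ j, B i j ≤ τ * ∑ i, B i i) : Feas G τ := by
  by_contra hcon
  have hM0 : (fun i j : V => if i = j then τ - 1 else -1) ∉ cone G := by
    rintro ⟨Z, hZ, hd, he⟩
    refine hcon ⟨Z, hZ, fun i => by simpa using hd i, fun i j h => ?_⟩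
    have := he i j h
    simpa [h.ne] using this
  obtain ⟨f, u, hf, hu⟩ := geometric_hahn_banach_closed_point (cone_convex G) (cone_closed G) hM0
  have h0 : (0 : ℝ) < u := by
    have : (0 : V → V → ℝ) ∈ cone G := ⟨fun _ _ => 0, psd_zero, by simp, by simp⟩
    simpa using hf 0 this
  -- f ≤ 0 on the cone
  have hfc : ∀ M ∈ cone G, f M ≤ 0 := by
    intro M hM
    by_contra hpos
    push Not at hpos
    obtain ⟨Z, hZ, hd, he⟩ := hM
    have hmem : (u / f M) • M ∈ cone G := by
      have hc : 0 ≤ u / f M := by positivity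
      refine ⟨fun i j => (u / f M) * Z i j, hZ.smul hc, fun i => ?_, fun i j h => ?_⟩
      · simpa using mul_le_mul_of_nonneg_left (hd i) hc
      · simp [he i j h]
    have := hf _ hmem
    rw [map_smul, smul_eq_mul, div_mul_cancel₀ _ hpos.ne'] at this
    exact lt_irrefl _ this
  -- coefficients
  let e : V → V → V → V → ℝ := fun i j => Pi.single i (Pi.single j 1)
  let F : V → V → ℝ := fun i j => f (e i j)
  have hF : ∀ M : V → V → ℝ, f M = ∑ i, ∑ j, M i j * F i j := by
    intro M
    have hM : M = ∑ i, ∑ j, M i j • e i j := by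
      funext a b
      simp only [Finset.sum_apply, Pi.smul_apply, smul_eq_mul, e]
      rw [Finset.sum_eq_single a]
      · rw [Finset.sum_eq_single b]
        · simp
        · intro j _ hj; simp [Pi.single_apply, hj.symm]
        · simp
      · intro i _ hi
        refine Finset.sum_eq_zero fun j _ => ?_
        simp [Pi.single_apply, hi.symm]
      · simp
    conv_lhs => rw [hM]
    simp only [map_sum, map_smul, smul_eq_mul, F]
  have hFne : ∀ i j, i ≠ j → ¬ G.Adj i j → F i j = 0 := by
    intro i j hij ha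
    have hpos : ∀ c : ℝ, c • e i j ∈ cone G := by
      intro c
      refine ⟨fun _ _ => 0, psd_zero, fun k => ?_, fun k l h => ?_⟩
      · simp only [Pi.smul_apply, smul_eq_mul, e]
        by_cases hk : k = i
        · subst hk; simp [Pi.single_apply, hij]
        · simp [Pi.single_apply, hk]
      · simp only [Pi.smul_apply, smul_eq_mul, e]
        by_cases hk : k = i
        · subst hk
          by_cases hl : l = j
          · subst hl; exact absurd h ha
          · simp [Pi.single_apply, hl]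
        · simp [Pi.single_apply, hk]
    have h1 := hfc _ (hpos 1)
    have h2 := hfc _ (hpos (-1))
    rw [map_smul] at h1 h2
    simp only [smul_eq_mul] at h1 h2
    show f (e i j) = 0
    linarith
  -- the dual matrix
  let B : V → V → ℝ := fun i j => -(F i j + F j i) / 2
  have hsym : ∀ (Z : V → V → ℝ), (∀ i j, Z i j = Z j i) →
      ∑ i, ∑ j, Z i j * B i j = - ∑ i, ∑ j, Z i j * F i j := by
    intro Z hZ
    have h1 : ∑ i, ∑ j, Z i j * F j i = ∑ i, ∑ j, Z i j * F i j := by
      rw [Finset.sum_comm]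
      exact Finset.sum_congr rfl fun i _ => Finset.sum_congr rfl fun j _ => by rw [hZ]
    have h2 : ∑ i, ∑ j, Z i j * B i j
        = -(∑ i, ∑ j, Z i j * F i j + ∑ i, ∑ j, Z i j * F j i) / 2 := by
      simp only [B, ← Finset.sum_add_distrib, Finset.sum_div, ← Finset.sum_neg_distrib]
      exact Finset.sum_congr rfl fun i _ => Finset.sum_congr rfl fun j _ => by ring
    rw [h2, h1]; ring
  have hBd : Dual G B := by
    refine ⟨⟨fun i j => by simp only [B]; ring, fun x => ?_⟩, fun i j hij ha => ?_⟩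
    · have hx : (fun i j : V => x i * x j) ∈ cone G := by
        refine ⟨fun i j => x i * x j, ?_, fun i => le_rfl, fun i j _ => rfl⟩
        have := psd_of_gram (fun (_ : Unit) (i : V) => x i)
        simpa using this
      have h1 := hfc _ hx
      rw [hF] at h1
      rw [hsym (fun i j => x i * x j) (fun i j => mul_comm _ _)]
      linarith
    · simp only [B, hFne i j hij ha, hFne j i hij.symm (fun h => ha h.symm)]
      simp
  have h1 := hτ B hBd
  have h2 : 0 < f (fun i j : V => if i = j then τ - 1 else -1) := h0.trans hu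
  rw [hF] at h2
  have h3 := hsym (fun i j : V => if i = j then τ - 1 else -1)
    (fun i j => by by_cases h : i = j <;> simp [h, eq_comm])
  have h4 : ∑ i, ∑ j, (if i = j then τ - 1 else -1) * B i j
      = τ * ∑ i, B i i - ∑ i, ∑ j, B i j := by
    rw [Finset.mul_sum, ← Finset.sum_sub_distrib]
    refine Finset.sum_congr rfl fun i _ => ?_
    have : ∀ j, (if i = j then τ - 1 else -1) * B i j
        = (if i = j then τ * B i j else 0) - B i j := by
      intro j; by_cases h : i = j <;> simp [h] <;> ring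
    rw [Finset.sum_congr rfl fun j _ => this j, Finset.sum_sub_distrib]
    simp
  linarith

theorem psd_diagonal [DecidableEq V] {d : V → ℝ} (hd : ∀ i, 0 ≤ d i) :
    PSD (fun i j : V => if i = j then d i else 0) := by
  refine ⟨fun i j => ?_, fun x => ?_⟩
  · by_cases h : i = j
    · subst h; rfl
    · simp [h, Ne.symm h]
  · refine Finset.sum_nonneg fun i _ => ?_
    simp only [mul_ite, mul_zero, Finset.sum_ite_eq, Finset.mem_univ, if_true]
    exact mul_nonneg (mul_self_nonneg _) (hd i)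

theorem exists_opt [Nonempty V] (G : SimpleGraph V) :
    ∃ (τ : ℝ) (B : V → V → ℝ), Dual G B ∧ ∑ i, B i i = 1 ∧ ∑ i, ∑ j, B i j = τ ∧
      ∀ B', Dual G B' → ∑ i, ∑ j, B' i j ≤ τ * ∑ i, B' i i := by
  classical
  let S : Set (V → V → ℝ) := {B | Dual G B ∧ ∑ i, B i i = 1}
  have hSK : S ⊆ Set.pi Set.univ fun _ : V => Set.pi Set.univ fun _ : V => Set.Icc (-1) 1 := by
    rintro B ⟨hB, ht⟩ i _ j _
    refine abs_le.mp (psd_bound hB.1 (fun k => ?_) i j)
    rw [← ht]
    exact Finset.single_le_sum (f := fun i => B i i) (fun i _ => hB.1.diag_nonneg i)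
      (Finset.mem_univ k)
  have hSc : IsClosed S := by
    have : S = {Z : V → V → ℝ | PSD Z} ∩ ((⋂ i, ⋂ j, {Z | i ≠ j → ¬ G.Adj i j → Z i j = 0}) ∩
        {Z | ∑ i, Z i i = 1}) := by
      ext Z; simp [S, Dual, and_assoc]
    rw [this]
    refine isClosed_psd.inter (IsClosed.inter ?_ ?_)
    · refine isClosed_iInter fun i => isClosed_iInter fun j => ?_
      by_cases h : i ≠ j ∧ ¬ G.Adj i j
      · have : {Z : V → V → ℝ | i ≠ j → ¬ G.Adj i j → Z i j = 0} = {Z | Z i j = 0} := by
          ext Z; simp [h.1, h.2]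
        rw [this]
        exact isClosed_eq (by fun_prop) (by fun_prop)
      · have : {Z : V → V → ℝ | i ≠ j → ¬ G.Adj i j → Z i j = 0} = Set.univ := by
          ext Z
          simp only [Set.mem_setOf_eq, Set.mem_univ, iff_true]
          intro h1 h2; exact absurd ⟨h1, h2⟩ h
        rw [this]; exact isClosed_univ
    · exact isClosed_eq (by fun_prop) (by fun_prop)
  have hScomp : IsCompact S := IsCompact.of_isClosed_subset
    (isCompact_univ_pi fun _ => isCompact_univ_pi fun _ => isCompact_Icc) hSc hSK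
  obtain ⟨i0⟩ := ‹Nonempty V›
  have hne : S.Nonempty := by
    refine ⟨fun i j => if i = j then (if i = i0 then 1 else 0) else 0, ⟨?_, ?_⟩, ?_⟩
    · exact psd_diagonal (d := fun i => if i = i0 then 1 else 0)
        (fun i => by by_cases h : i = i0 <;> simp [h])
    · intro i j hij _; simp [hij]
    · simp
  obtain ⟨B, hB, hmax⟩ := hScomp.exists_isMaxOn hne
    (f := fun B : V → V → ℝ => ∑ i, ∑ j, B i j) (by fun_prop)
  refine ⟨_, B, hB.1, hB.2, rfl, fun B' hB' => ?_⟩
  have hnn : 0 ≤ ∑ i, B' i i := Finset.sum_nonneg fun i _ => hB'.1.diag_nonneg i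
  rcases hnn.eq_or_lt with h0 | hpos
  · have hz : ∀ i j, B' i j = 0 := by
      intro i j
      have h1 : ∀ k, B' k k ≤ 0 := by
        intro k
        rw [h0]
        exact Finset.single_le_sum (f := fun i => B' i i) (fun i _ => hB'.1.diag_nonneg i)
          (Finset.mem_univ k)
      have := psd_bound hB'.1 h1 i j
      exact abs_nonpos_iff.mp this
    simp [hz]
  · set T := ∑ i, B' i i with hT
    have hmem : (fun i j => T⁻¹ * B' i j) ∈ S := by
      refine ⟨⟨hB'.1.smul (by positivity), fun i j hij ha => by simp [hB'.2 i j hij ha]⟩, ?_⟩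
      rw [← Finset.mul_sum, ← hT, inv_mul_cancel₀ hpos.ne']
    have h1 : ∑ i, ∑ j, T⁻¹ * B' i j ≤ ∑ i, ∑ j, B i j := hmax hmem
    have h2 : ∑ i, ∑ j, T⁻¹ * B' i j = T⁻¹ * ∑ i, ∑ j, B' i j := by
      simp only [Finset.mul_sum]
    rw [h2, inv_mul_le_iff₀ hpos] at h1
    linarith

theorem isLeast_of_opt {G : SimpleGraph V} {τ : ℝ} {B : V → V → ℝ} (hB : Dual G B)
    (h1 : ∑ i, B i i = 1) (h2 : ∑ i, ∑ j, B i j = τ)
    (h3 : ∀ B', Dual G B' → ∑ i, ∑ j, B' i j ≤ τ * ∑ i, B' i i) :
    IsLeast {s | Feas G s} τ := by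
  classical
  refine ⟨strong_duality h3, fun s hs => ?_⟩
  have := weak_duality hB hs
  rw [h1, h2, mul_one] at this
  exact this

/-- `τ diag(B) - B` -/
def slack [DecidableEq V] (τ : ℝ) (B : V → V → ℝ) (i j : V) : ℝ :=
  (if i = j then τ * B i i else 0) - B i j

theorem slack_psd [DecidableEq V] {G : SimpleGraph V} {τ : ℝ} {B : V → V → ℝ} (hB : Dual G B)
    (h3 : ∀ B', Dual G B' → ∑ i, ∑ j, B' i j ≤ τ * ∑ i, B' i i) : PSD (slack τ B) := by
  refine ⟨fun i j => ?_, fun x => ?_⟩
  · simp only [slack, hB.1.1 i j]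
    by_cases h : i = j
    · subst h; rfl
    · simp [h, Ne.symm h]
  · have hd : Dual G (fun i j => x i * x j * B i j) := by
      refine ⟨⟨fun i j => by simp only [hB.1.1 i j]; ring, fun y => ?_⟩, fun i j hij ha => ?_⟩
      · refine (hB.1.2 (fun i => y i * x i)).trans_eq ?_
        exact Finset.sum_congr rfl fun i _ => Finset.sum_congr rfl fun j _ => by ring
      · simp [hB.2 i j hij ha]
    have h4 := h3 _ hd
    have h5 : ∑ i, ∑ j, x i * x j * slack τ B i j
        = τ * ∑ i, x i * x i * B i i - ∑ i, ∑ j, x i * x j * B i j := by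
      rw [Finset.mul_sum, ← Finset.sum_sub_distrib]
      refine Finset.sum_congr rfl fun i _ => ?_
      simp only [slack, mul_sub, Finset.sum_sub_distrib, mul_ite, mul_zero, Finset.sum_ite_eq,
        Finset.mem_univ, if_true]
      ring
    rw [h5]; linarith

theorem row_sum [DecidableEq V] {G : SimpleGraph V} {τ : ℝ} {B : V → V → ℝ} (hB : Dual G B)
    (h1 : ∑ i, B i i = 1) (h2 : ∑ i, ∑ j, B i j = τ)
    (h3 : ∀ B', Dual G B' → ∑ i, ∑ j, B' i j ≤ τ * ∑ i, B' i i) (i : V) :
    ∑ j, B i j = τ * B i i := by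
  obtain ⟨A, hA⟩ := (slack_psd hB h3).gram
  have h4 := gram_quad A (fun _ => 1)
  simp only [one_mul, ← hA] at h4
  have h5 : ∑ i, ∑ j, slack τ B i j = 0 := by
    simp only [slack, Finset.sum_sub_distrib, Finset.sum_ite_eq, Finset.mem_univ, if_true,
      ← Finset.mul_sum, h1, h2]
    ring
  rw [h5] at h4
  have h6 : ∀ k, ∑ i, A k i = 0 := by
    intro k
    have := (Finset.sum_eq_zero_iff_of_nonneg (fun k _ => sq_nonneg (∑ i, A k i))).mp h4.symm k
      (Finset.mem_univ k)
    exact pow_eq_zero_iff (two_ne_zero) |>.mp this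
  have h7 : ∑ j, slack τ B i j = 0 := by
    simp only [hA]
    rw [Finset.sum_comm]
    refine Finset.sum_eq_zero fun k _ => ?_
    rw [← Finset.mul_sum, h6, mul_zero]
  simp only [slack, Finset.sum_sub_distrib, Finset.sum_ite_eq, Finset.mem_univ, if_true] at h7
  linarith

end duality

section reduction

variable {V : Type} [Fintype V] [Nonempty V]

theorem weighted_sum {G : SimpleGraph V} {B : V → V → ℝ} (hB : Dual G B)
    (h1 : ∑ i, B i i = 1) {τ : ℝ} (h2 : ∑ i, ∑ j, B i j = τ) {W : V → V → ℝ}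
    (hW : ∀ i j, G.Adj i j → W i j = -1) :
    ∑ i, ∑ j, B i j * W i j = ∑ i, B i i * W i i + 1 - τ := by
  classical
  have e2 : ∀ i, ∑ j, (B i j + B i j * W i j) = B i i * (1 + W i i) := by
    intro i
    rw [Finset.sum_eq_single i]
    · ring
    · intro j _ hj
      by_cases ha : G.Adj i j
      · rw [hW i j ha]; ring
      · rw [hB.2 i j (Ne.symm hj) ha]; ring
    · simp
  have e3 : ∑ i, ∑ j, B i j + ∑ i, ∑ j, B i j * W i j = ∑ i, B i i * (1 + W i i) := by
    rw [← Finset.sum_add_distrib]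
    exact Finset.sum_congr rfl fun i _ => by rw [← Finset.sum_add_distrib, e2]
  have e4 : ∑ i, B i i * (1 + W i i) = ∑ i, B i i + ∑ i, B i i * W i i := by
    rw [← Finset.sum_add_distrib]
    exact Finset.sum_congr rfl fun i _ => by ring
  rw [h2, e4, h1] at e3
  linarith

theorem reduce {G : SimpleGraph V} {τ : ℝ} {B : V → V → ℝ} (hB : Dual G B)
    (h1 : ∑ i, B i i = 1) (h2 : ∑ i, ∑ j, B i j = τ)
    (h3 : ∀ B', Dual G B' → ∑ i, ∑ j, B' i j ≤ τ * ∑ i, B' i i) (hτ : 1 < τ) {r : ℕ} {s : ℝ}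
    (hs : Feas (genMycielskian G r) s) : Reduced r τ s := by
  classical
  obtain ⟨Z, hZ, hd, he⟩ := hs
  have hτ0 : (0 : ℝ) < τ := by linarith
  let φ : V × Option (Fin r) → Option (V × Fin r) := fun p => p.2.map fun i => (p.1, i)
  have hZ' := hZ.pullback φ
  have hZ'' := hZ.pullback (fun p : V × Fin r => some p)
  have hB1 := hB.1
  have hrow := row_sum hB h1 h2 h3
  refine ⟨fun a b => τ⁻¹ * ∑ u, ∑ v, B u v * Z (φ (u, a)) (φ (v, b)),
    fun i j => τ⁻¹ * ∑ u, ∑ v, slack τ B u v * Z (some (u, i)) (some (v, j)),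
    (hB1.contract hZ').smul (by positivity),
    ((slack_psd hB h3).contract hZ'').smul (by positivity), fun i j hij => ?_, fun i hi => ?_,
    fun i => ?_, ?_⟩
  · have hW : ∀ u v, G.Adj u v → Z (some (u, i)) (some (v, j)) = -1 :=
      fun u v huv => he _ _ ⟨huv, hij⟩
    have e1 := weighted_sum hB h1 h2 (W := fun u v => Z (some (u, i)) (some (v, j))) hW
    have e2 : ∑ u, ∑ v, slack τ B u v * Z (some (u, i)) (some (v, j))
        = τ * ∑ u, B u u * Z (some (u, i)) (some (u, j))
          - ∑ u, ∑ v, B u v * Z (some (u, i)) (some (v, j)) := by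
      rw [Finset.mul_sum, ← Finset.sum_sub_distrib]
      refine Finset.sum_congr rfl fun u _ => ?_
      simp only [slack, sub_mul, Finset.sum_sub_distrib, ite_mul, zero_mul, Finset.sum_ite_eq,
        Finset.mem_univ, if_true]
      ring
    simp only [e2, φ, Option.map_some, e1]
    field_simp
    ring
  · have hrow' : ∀ v, ∑ u, B u v = τ * B v v := by
      intro v; rw [← hrow v]; exact Finset.sum_congr rfl fun u _ => hB1.1 u v
    have e1 : ∑ u, ∑ v, B u v * Z (φ (u, none)) (φ (v, some i))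
        = ∑ v, τ * B v v * Z none (some (v, i)) := by
      rw [Finset.sum_comm]
      refine Finset.sum_congr rfl fun v _ => ?_
      simp only [φ, Option.map_some, Option.map_none]
      rw [← Finset.sum_mul, hrow']
    have e2 : ∀ v, τ * B v v * Z none (some (v, i)) = τ * B v v * (-1) := by
      intro v
      by_cases hv : ∃ w, G.Adj v w
      · obtain ⟨w, hw⟩ := hv
        rw [he none (some (v, i)) ⟨w, hw, Or.inl hi⟩]
      · have : B v v = 0 := by
          have h4 := hrow v
          rw [Finset.sum_eq_single v] at h4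
          · have : (τ - 1) * B v v = 0 := by linarith
            rcases mul_eq_zero.mp this with h | h
            · linarith
            · exact h
          · intro j _ hj
            exact hB.2 v j hj.symm (fun h => hv ⟨j, h⟩)
          · simp
        rw [this]; ring
    simp only [e1, e2]
    rw [← Finset.sum_mul, ← Finset.mul_sum, h1]
    field_simp
  · have e1 : ∑ u, ∑ v, B u v * Z (φ (u, some i)) (φ (v, some i))
        + ∑ u, ∑ v, slack τ B u v * Z (some (u, i)) (some (v, i))
        = τ * ∑ u, B u u * Z (some (u, i)) (some (u, i)) := by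
      rw [Finset.mul_sum, ← Finset.sum_add_distrib]
      refine Finset.sum_congr rfl fun u _ => ?_
      rw [← Finset.sum_add_distrib]
      simp only [φ, Option.map_some, slack, sub_mul, ite_mul, zero_mul]
      simp only [add_sub_cancel, Finset.sum_ite_eq, Finset.mem_univ, if_true]
      ring
    simp only [← mul_add, e1]
    rw [← mul_assoc, inv_mul_cancel₀ hτ0.ne', one_mul]
    calc ∑ u, B u u * Z (some (u, i)) (some (u, i))
        ≤ ∑ u, B u u * (s - 1) :=
          Finset.sum_le_sum fun u _ => mul_le_mul_of_nonneg_left (hd _) (hB1.diag_nonneg u)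
      _ = s - 1 := by rw [← Finset.sum_mul, h1, one_mul]
  · have e1 : ∑ u, ∑ v, B u v * Z (φ (u, none)) (φ (v, none)) = τ * Z none none := by
      simp only [φ, Option.map_none]
      rw [← h2, Finset.sum_mul]
      exact Finset.sum_congr rfl fun u _ => by rw [Finset.sum_mul]
    simp only [e1]
    rw [← mul_assoc, inv_mul_cancel₀ hτ0.ne', one_mul]
    exact hd none

theorem reconstruct {G : SimpleGraph V} {t : ℝ} (ht : 1 < t) (hG : Feas G t) {r : ℕ} {s : ℝ}
    (hR : Reduced r t s) : Feas (genMycielskian G r) s := by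
  classical
  obtain ⟨Z0, hZ0, hd0, he0⟩ := hG
  obtain ⟨Q, P, hQ, hP, hadj, hlast, hdiag, hnone⟩ := hR
  have ht0 : (0 : ℝ) < t - 1 := by linarith
  let N : V → V → ℝ := fun u v =>
    (t - 1)⁻¹ * (Z0 u v + if u = v then (t - 1 - Z0 u u) else 0)
  have hN : PSD N :=
    (hZ0.add (psd_diagonal (d := fun u => t - 1 - Z0 u u)
      (fun u => by linarith [hd0 u]))).smul (by positivity)
  have hN1 : ∀ u, N u u = 1 := by
    intro u
    simp only [N, if_true]
    field_simp
    ring
  have hN2 : ∀ u v, G.Adj u v → N u v = -(t - 1)⁻¹ := by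
    intro u v h
    simp only [N, if_neg h.ne, he0 u v h]
    ring
  let ψ : Option (V × Fin r) → Option (Fin r) := Option.map Prod.snd
  let E : Option (V × Fin r) → Option (V × Fin r) → ℝ :=
    ext0 fun a b : V × Fin r => P a.2 b.2 * N a.1 b.1
  have hE : PSD E := (hP.kron hN).extendNone
  refine ⟨fun a b => Q (ψ a) (ψ b) + E a b, (hQ.pullback ψ).add hE, fun a => ?_,
    fun a b hab => ?_⟩
  · rcases a with _ | ⟨v, i⟩
    · simpa [ψ, E, ext0] using hnone
    · simpa [ψ, E, ext0, hN1] using hdiag i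
  · rcases a with _ | ⟨v, i⟩ <;> rcases b with _ | ⟨w, j⟩
    · exact absurd hab id
    · obtain ⟨w', hw', hp⟩ := hab
      have hj : j.val + 1 = r := by
        rcases hp with h | h | h
        · exact h
        · have := j.2; simp only at h; omega
        · have := j.2; simp only at h; omega
      simpa [ψ, E, ext0] using hlast j hj
    · obtain ⟨w', hw', hp⟩ := hab
      have hj : i.val + 1 = r := by
        rcases hp with h | h | h
        · exact h
        · have := i.2; simp only at h; omega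
        · have := i.2; simp only at h; omega
      have := hlast i hj
      rw [hQ.1] at this
      simpa [ψ, E, ext0] using this
    · have h1 : G.Adj v w := hab.1
      have h2 : PathAdj i j := hab.2
      simp only [ψ, E, ext0, Option.map_some, hN2 v w h1, hadj i j h2]
      field_simp
      ring

theorem feas_edgeless {G : SimpleGraph V} (h : ∀ u v, ¬ G.Adj u v) : IsLeast {s | Feas G s} 1 := by
  refine ⟨⟨fun _ _ => 0, psd_zero, by simp, fun i j hij => absurd hij (h i j)⟩, ?_⟩
  rintro s ⟨Z, hZ, hd, -⟩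
  obtain ⟨i⟩ := ‹Nonempty V›
  have := hZ.diag_nonneg i
  linarith [hd i]

theorem feas_edge {G : SimpleGraph V} (h : ∃ u v, G.Adj u v) {s : ℝ} (hs : Feas G s) : 1 < s := by
  obtain ⟨u, v, huv⟩ := h
  obtain ⟨Z, hZ, hd, he⟩ := hs
  by_contra hcon
  push Not at hcon
  have := psd_bound hZ (C := s - 1) hd u v
  rw [he u v huv] at this
  simp at this
  linarith

end reduction

section theta

variable {V : Type} [Fintype V] [Nonempty V]

omit [Nonempty V] in
theorem feas_of_mem {G : SimpleGraph V} {s : ℝ} (hs : s ∈ thetaValues G) : Feas G s := by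
  obtain ⟨d, u, c, ⟨hu, horth⟩, hc, hcu, hmax⟩ := hs
  let w : V → EuclideanSpace ℝ (Fin d) := fun i => (⟪c, u i⟫_ℝ)⁻¹ • u i - c
  have key : ∀ i j, ⟪w i, w j⟫_ℝ = (⟪c, u i⟫_ℝ)⁻¹ * (⟪c, u j⟫_ℝ)⁻¹ * ⟪u i, u j⟫_ℝ - 1 := by
    intro i j
    simp only [w, inner_sub_left, inner_sub_right, real_inner_smul_left, real_inner_smul_right,
      real_inner_self_eq_norm_sq, hc]
    rw [real_inner_comm c (u i)]
    have := hcu i
    have := hcu j
    field_simp
    ring
  refine ⟨fun i j => ⟪w i, w j⟫_ℝ, ⟨fun i j => real_inner_comm _ _, fun x => ?_⟩, fun i => ?_,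
    fun i j h => ?_⟩
  · have : ∑ i, ∑ j, x i * x j * ⟪w i, w j⟫_ℝ = ⟪∑ i, x i • w i, ∑ i, x i • w i⟫_ℝ := by
      simp only [sum_inner, inner_sum, real_inner_smul_left, real_inner_smul_right]
      exact Finset.sum_congr rfl fun i _ => Finset.sum_congr rfl fun j _ => by
        rw [real_inner_comm (w i) (w j)]; ring
    rw [this]
    exact real_inner_self_nonneg
  · show ⟪w i, w i⟫_ℝ ≤ s - 1
    rw [key, real_inner_self_eq_norm_sq, hu]
    have := hmax.2 ⟨i, rfl⟩
    simp only [one_div] at this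
    have e : (⟪c, u i⟫_ℝ)⁻¹ * (⟪c, u i⟫_ℝ)⁻¹ * 1 ^ 2 = (⟪c, u i⟫_ℝ ^ 2)⁻¹ := by
      rw [← inv_pow]; ring
    linarith
  · show ⟪w i, w j⟫_ℝ = -1
    rw [key, horth i j h]; ring

theorem mem_of_feas {G : SimpleGraph V} {s : ℝ} (hs : Feas G s) :
    ∃ s' ≤ s, s' ∈ thetaValues G := by
  classical
  obtain ⟨Z, hZ, hd, he⟩ := hs
  obtain ⟨A, hA⟩ := hZ.gram
  let E := EuclideanSpace ℝ (Option V)
  let c0 : E := WithLp.toLp 2 (fun o => match o with | none => 1 | some _ => 0)
  let y0 : V → E := fun i => WithLp.toLp 2 (fun o => match o with | none => 1 | some k => A k i)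
  have hin : ∀ f g : Option V → ℝ, ⟪(WithLp.toLp 2 f : E), (WithLp.toLp 2 g : E)⟫_ℝ
      = ∑ o, f o * g o := by
    intro f g
    rw [PiLp.inner_apply]
    exact Finset.sum_congr rfl fun o _ => by simp [mul_comm]
  have hc0 : ⟪c0, c0⟫_ℝ = 1 := by
    rw [hin, Fintype.sum_option]; simp
  have hcy : ∀ i, ⟪c0, y0 i⟫_ℝ = 1 := by
    intro i
    rw [hin, Fintype.sum_option]; simp
  have hyy : ∀ i j, ⟪y0 i, y0 j⟫_ℝ = 1 + Z i j := by
    intro i j
    rw [hin, Fintype.sum_option, hA]; simp
  let T : E ≃ₗᵢ[ℝ] EuclideanSpace ℝ (Fin (Module.finrank ℝ E)) := (stdOrthonormalBasis ℝ E).repr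
  have hpos : ∀ i, 0 < 1 + Z i i := fun i => by linarith [hZ.diag_nonneg i]
  let u : V → EuclideanSpace ℝ (Fin (Module.finrank ℝ E)) :=
    fun i => (Real.sqrt (1 + Z i i))⁻¹ • T (y0 i)
  have hcu : ∀ i, ⟪T c0, u i⟫_ℝ = (Real.sqrt (1 + Z i i))⁻¹ := by
    intro i
    simp only [u, real_inner_smul_right, LinearIsometryEquiv.inner_map_map, hcy, mul_one]
  obtain ⟨i0, -, hi0⟩ := Finset.exists_max_image (univ : Finset V) (fun i => 1 + Z i i)
    Finset.univ_nonempty
  refine ⟨1 + Z i0 i0, by linarith [hd i0], _, u, T c0, ⟨fun i => ?_, fun i j h => ?_⟩, ?_,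
    fun i => ?_, ?_⟩
  · have h1 : ⟪u i, u i⟫_ℝ = 1 := by
      simp only [u, real_inner_smul_right, real_inner_smul_left,
        LinearIsometryEquiv.inner_map_map, hyy]
      have := Real.mul_self_sqrt (hpos i).le
      have h2 : Real.sqrt (1 + Z i i) ≠ 0 := (Real.sqrt_pos.mpr (hpos i)).ne'
      field_simp
      nlinarith
    rw [real_inner_self_eq_norm_sq] at h1
    exact (pow_eq_one_iff_of_nonneg (norm_nonneg _) two_ne_zero).mp h1
  · simp only [u, real_inner_smul_right, real_inner_smul_left,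
        LinearIsometryEquiv.inner_map_map, hyy, he i j h]
    simp
  · have h1 : ⟪T c0, T c0⟫_ℝ = 1 := by rw [LinearIsometryEquiv.inner_map_map, hc0]
    rw [real_inner_self_eq_norm_sq] at h1
    exact (pow_eq_one_iff_of_nonneg (norm_nonneg _) two_ne_zero).mp h1
  · rw [hcu]
    exact inv_ne_zero (Real.sqrt_pos.mpr (hpos i)).ne'
  · have hval : ∀ i, 1 / ⟪T c0, u i⟫_ℝ ^ 2 = 1 + Z i i := by
      intro i
      rw [hcu, inv_pow, Real.sq_sqrt (hpos i).le]
      simp
    refine ⟨⟨i0, hval i0⟩, ?_⟩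
    rintro _ ⟨i, rfl⟩
    simp only [hval]
    exact hi0 i (Finset.mem_univ i)

theorem isLeast_thetaValues {G : SimpleGraph V} {τ : ℝ} (h : IsLeast {s | Feas G s} τ) :
    IsLeast (thetaValues G) τ := by
  obtain ⟨s', hs', hmem⟩ := mem_of_feas h.1
  have : τ ≤ s' := h.2 (feas_of_mem hmem)
  have e : s' = τ := le_antisymm hs' this
  rw [← e]
  refine ⟨hmem, fun s hs => ?_⟩
  rw [e]
  exact h.2 (feas_of_mem hs)

theorem isLeast_feas (G : SimpleGraph V) : IsLeast {s | Feas G s} (thetaBar G) := by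
  obtain ⟨τ, B, hB, h1, h2, h3⟩ := exists_opt G
  have h4 := isLeast_of_opt hB h1 h2 h3
  have h5 := isLeast_thetaValues h4
  have : thetaBar G = τ := h5.csInf_eq
  rw [this]; exact h4

theorem reduced_isLeast (G : SimpleGraph V) (hG : ∃ u v, G.Adj u v) (r : ℕ) :
    IsLeast {s | Reduced r (thetaBar G) s} (thetaBar (genMycielskian G r)) := by
  obtain ⟨τ, B, hB, h1, h2, h3⟩ := exists_opt G
  have h4 := isLeast_of_opt hB h1 h2 h3
  have h5 : thetaBar G = τ := (isLeast_thetaValues h4).csInf_eq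
  have hτ : 1 < τ := feas_edge hG h4.1
  have h6 := isLeast_feas (genMycielskian G r)
  rw [h5]
  have h7 : {s | Reduced r τ s} = {s | Feas (genMycielskian G r) s} := by
    ext s
    exact ⟨fun h => reconstruct hτ h4.1 h, fun h => reduce hB h1 h2 h3 hτ h⟩
  rw [h7]; exact h6

theorem thetaBar_edgeless {G : SimpleGraph V} (h : ∀ u v, ¬ G.Adj u v) : thetaBar G = 1 :=
  (isLeast_thetaValues (feas_edgeless h)).csInf_eq

end theta

/-- the function `g_r` -/
noncomputable def gFun (r : ℕ) (t : ℝ) : ℝ := if t ≤ 1 then 1 else sInf {s | Reduced r t s}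

/-- **Main theorem.** -/
theorem result :
    (∀ (V : Type) [Fintype V] [Nonempty V] (G : SimpleGraph V),
      IsLeast (thetaValues G) (thetaBar G)) ∧
    (∀ r : ℕ, 1 ≤ r → ∃ g : ℝ → ℝ, ∀ (V : Type) [Fintype V] [Nonempty V] (G : SimpleGraph V),
      thetaBar (genMycielskian G r) = g (thetaBar G)) ∧
    (∀ r : ℕ, 1 ≤ r → ∀ (V : Type) [Fintype V] [Nonempty V] (G : SimpleGraph V),
      (∃ u v, G.Adj u v) →
      IsLeast {s | Reduced r (thetaBar G) s} (thetaBar (genMycielskian G r))) := by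
  refine ⟨fun V _ _ G => isLeast_thetaValues (isLeast_feas G), fun r _ => ⟨gFun r, ?_⟩,
    fun r _ V _ _ G hG => reduced_isLeast G hG r⟩
  intro V _ _ G
  by_cases hG : ∃ u v, G.Adj u v
  · have h1 := (reduced_isLeast G hG r).csInf_eq
    have h2 : 1 < thetaBar G := feas_edge hG (isLeast_feas G).1
    rw [gFun, if_neg (not_le.mpr h2), h1]
  · push Not at hG
    have h1 : thetaBar G = 1 := thetaBar_edgeless hG
    have h2 : ∀ x y, ¬ (genMycielskian G r).Adj x y := by
      intro x y h
      rcases x with _ | p <;> rcases y with _ | q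
      · exact h
      · obtain ⟨w, hw, -⟩ := h; exact hG _ _ hw
      · obtain ⟨w, hw, -⟩ := h; exact hG _ _ hw
      · exact hG _ _ h.1
    rw [h1, thetaBar_edgeless h2, gFun, if_pos le_rfl]

end Pool.Agent.Results.MP_8a180b_co.MycielskianTheta
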